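import Pool.Agent.H930.CY.Top
import Pool.Agent.H930.CY.Graph

/-!
# Finiteness for Calabi-Yau complete intersections in products of weighted projective spaces

Let `X` be a complete intersection of dimension `n` and trivial canonical class in a product of `r`
weighted projective spaces, `r` and the codimension `c` being arbitrary, such that the torus
`(ℂ*)^r` acts freely on the cone over `X` (that is, the sheaves `O(1)` of the factors are invertible
on `X`, and `X` does not meet the singularities of the product). Then `X` is given by a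
*configuration*: the weights of the variables and the multidegrees of the equations. The smooth
members of one configuration form a connected family, and so they are diffeomorphic. We show that in
every dimension there are only finitely many configurations, if the following cases are excluded:
the image of `X` in a factor is finite, or `X` is a product with a factor of dimension `0`; an
equation on a single factor has the degree of one of its variables (linear cones); an equation has
bidegree `(1, 1)` on a product of two lines `P¹`. In these cases `X` lies in a fibre, or can be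
deformed to a complete intersection in a smaller space. In fact then

  `r ≤ 7 n`, `c ≤ 10 n`,

there are at most `18 n` variables, and all weights and degrees are at most `2 (n + 1)²`. Nothing is
assumed on the singularities of `X`, or on the dimension of the zero set of the equations.

Proof. Let `s` be a factor, `K` the number of its variables, `C` the number of equations which
contain them, and for `m ≥ 2` let `e(m)` be the difference of the number of these equations whose
degree in `s` is divisible by `m`, and the number of variables of `s` whose weight is divisible by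
`m`. As the action is free, `e(m) ≥ 0` (`card_dvd_le`): otherwise there is a point where only
variables with weights divisible by `m` do not vanish. Hence `K - C = ∑ φ(m) e(m) ≥ 0`, because the
canonical class is trivial. Let `D` be the largest weight or degree of `s`. If `D ≥ 2` and
`e(D) = 0` then the equations of degree `D` are linear in the variables of weight `D`, and the
determinant of their coefficients is a form without zeros on the common zeros of the equations which
do not see `s` (`exists_form`). If it has positive degree in a factor `t`, then the image of `X` in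
`t` is finite by the Nullstellensatz (`exists_bound`). So it is constant, and there is a linear
cone. Therefore `e(D) ≥ 1`, and `φ(D) ≤ K - C`. Now let `x` be the sum of the `K - C` over all
factors of a connected component of the graph of factors and equations. Counting vertices and edges
gives `x + b = n' + 1` with the first Betti number `b ≥ 0` and the dimension `n'` of the component.
The factors with `K = C` are projective spaces with `K` linear equations, each of which contains
another factor, and the number of vertices of the graph is bounded, as two vertices of degree two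
which belong to projective lines are not joined by an equation of bidegree `(1, 1)`. The equations
on one factor are bounded by Möbius inversion and `τ(m) ≤ 2 φ(m)` (`card_new_le`).
-/

set_option autoImplicit false

namespace Pool.Agent.Results.MP_3d72f2_ag.ProductsOfWeightedSpaces

open MvPolynomial Finset

/-- The points of the cone over `X`: the common zeros of the `f_j` which have a nonzero coordinate in
every factor. Here `p i` is the factor to which the variable `x_i` belongs. -/
def Point {r k c : ℕ} (p : Fin k → Fin r) (f : Fin c → MvPolynomial (Fin k) ℂ) (x : Fin k → ℂ) :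
    Prop :=
  (∀ s, ∃ i, p i = s ∧ x i ≠ 0) ∧ ∀ j, eval x (f j) = 0

/-- The polynomials `f_1, …, f_c` define a Calabi-Yau complete intersection of dimension `n` in the
product of `r` weighted projective spaces, where the variable `x_i` belongs to the factor `p i` and
has the weight `a i`. -/
structure CalabiYau (n : ℕ) {r k c : ℕ} (p : Fin k → Fin r) (a : Fin k → ℕ)
    (d : Fin c → Fin r → ℕ) (f : Fin c → MvPolynomial (Fin k) ℂ) : Prop where
  /-- the weights are positive -/
  pos : ∀ i, 0 < a i
  /-- `f_j` is multihomogeneous: it has the degree `d j s` in the variables of the factor `s` -/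
  hom : ∀ j, IsWeightedHomogeneous (fun i => (Pi.single (p i) (a i) : Fin r → ℕ)) (f j) (d j)
  /-- no equation is constant -/
  nonconst : ∀ j, ∃ s, d j s ≠ 0
  /-- the product has dimension `k - r`, and `X` has codimension `c` in it -/
  dim : n + c + r = k
  /-- the canonical class is trivial -/
  canonical : ∀ s, ∑ j, d j s = ∑ i with p i = s, a i
  /-- the torus acts freely on the cone over `X`: for a point and a factor only `1` divides the
  weights of all variables of the factor which do not vanish -/
  free : ∀ x, Point p f x → ∀ s, ∀ q : ℕ, (∀ i, p i = s → x i ≠ 0 → q ∣ a i) → q = 1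
  /-- the image of `X` in the factor `s` is infinite: it is not contained in a finite union of
  orbits -/
  spread : ∀ s, ∀ F : Finset (Fin k → ℂ), ∃ x, Point p f x ∧
    ∀ y ∈ F, ¬ ∃ τ : ℂ, τ ≠ 0 ∧ ∀ i, p i = s → x i = τ ^ a i * y i

/-- The configuration cannot be reduced to smaller ones. -/
structure Reduced {r k c : ℕ} (p : Fin k → Fin r) (a : Fin k → ℕ) (d : Fin c → Fin r → ℕ) :
    Prop where
  /-- `X` is not a product with a factor of dimension `0`: if the equations which see a factor in `T`
  see only factors in `T`, then there are fewer of them than the dimension of the product over `T` -/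
  dimpos : ∀ T : Finset (Fin r), T.Nonempty →
    (∀ j, (∃ s ∈ T, d j s ≠ 0) → ∀ s, d j s ≠ 0 → s ∈ T) →
    (univ.filter fun j => ∃ s ∈ T, d j s ≠ 0).card + T.card <
      (univ.filter fun i => p i ∈ T).card
  /-- no linear cones: an equation which sees only one factor does not have the degree of a variable
  of this factor -/
  cone : ∀ j s i, p i = s → (∀ t, t ≠ s → d j t = 0) → d j s ≠ a i
  /-- no equation has bidegree `(1, 1)` on a product of two projective lines -/
  lines : ∀ j s t, s ≠ t → (univ.filter fun i => p i = s).card = 2 →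
    (univ.filter fun i => p i = t).card = 2 → (∀ i, p i = s ∨ p i = t → a i = 1) →
    ¬ (∀ u, d j u = if u = s ∨ u = t then 1 else 0)

theorem bounds (n r k c : ℕ) (p : Fin k → Fin r) (a : Fin k → ℕ) (d : Fin c → Fin r → ℕ)
    (f : Fin c → MvPolynomial (Fin k) ℂ) (h : CalabiYau n p a d f) (hr : Reduced p a d) :
    r ≤ 7 * n ∧ c ≤ 10 * n ∧ k ≤ 18 * n ∧ (∀ i, a i ≤ 2 * (n + 1) ^ 2) ∧
      ∀ j s, d j s ≤ 2 * (n + 1) ^ 2 := by
  classical
  have hcone : ∀ j s i, p i = s → d j s = a i → ∃ t, t ≠ s ∧ d j t ≠ 0 := by
    intro j s i hi hd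
    by_contra hcon
    push Not at hcon
    exact hr.cone j s i hi hcon hd
  have hxall : ∀ s : Fin r, ∃ x, Point p f x := fun s => by
    obtain ⟨x, hx, -⟩ := h.spread s ∅
    exact ⟨x, hx⟩
  -- the number of variables of a factor
  let K : Fin r → ℕ := fun s => (univ.filter fun i => p i = s).card
  have hK2 : ∀ s, 2 ≤ K s := by
    intro s
    obtain ⟨x, hx⟩ := hxall s
    obtain ⟨i, hi, hxi⟩ := hx.1 s
    by_contra hcon
    push Not at hcon
    have h1 : ∀ i', p i' = s → i' = i := by
      intro i' hi'
      exact (Finset.card_le_one.1 (Nat.lt_succ_iff.1 hcon)) i' (by simp [hi']) i (by simp [hi])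
    obtain ⟨x', hx', hne⟩ := h.spread s {fun _ => 1}
    obtain ⟨i'', hi'', hxi''⟩ := hx'.1 s
    rw [h1 i'' hi''] at hxi''
    obtain ⟨τ, hτ⟩ := IsAlgClosed.exists_pow_nat_eq (x' i) (h.pos i)
    refine hne _ (Finset.mem_singleton_self _) ⟨τ, ?_, fun i' hi' => ?_⟩
    · rintro rfl
      rw [zero_pow (h.pos i).ne'] at hτ
      exact hxi'' hτ.symm
    · rw [h1 i' hi', hτ, mul_one]
  have hdim : n + Fintype.card (Fin c) + Fintype.card (Fin r) = ∑ s, K s := by
    rw [Fintype.card_fin, Fintype.card_fin, h.dim]
    have h1 := Finset.card_eq_sum_card_fiberwise (f := p) (s := univ) (t := univ)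
      (fun i _ => by simp)
    rw [Finset.card_univ, Fintype.card_fin] at h1
    exact h1
  -- the two families of a factor
  have hI : ∀ s, ∀ i ∈ univ.filter (fun i => p i = s), 0 < a i := fun s i _ => h.pos i
  have hJ : ∀ s, ∀ j ∈ univ.filter (fun j => d j s ≠ 0), 0 < d j s := fun s j hj =>
    Nat.pos_of_ne_zero (mem_filter.1 hj).2
  have hle : ∀ s, ∀ m, 2 ≤ m → ((univ.filter fun i => p i = s).filter fun i => m ∣ a i).card ≤
      ((univ.filter fun j => d j s ≠ 0).filter fun j => m ∣ d j s).card := by
    intro s m hm
    obtain ⟨x, hx⟩ := hxall s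
    rw [Finset.filter_filter, Finset.filter_filter]
    exact Pool.Agent.H930.CY.card_dvd_le h.pos h.hom h.free hx s hm
  have hsum : ∀ s, ∑ i ∈ univ.filter (fun i => p i = s), a i =
      ∑ j ∈ univ.filter (fun j => d j s ≠ 0), d j s := by
    intro s
    rw [← h.canonical s]
    symm
    refine Finset.sum_subset (Finset.subset_univ _) fun j _ hj => ?_
    by_contra h0
    exact hj (by simp [h0])
  have hcK : ∀ s, (univ.filter fun j => d j s ≠ 0).card ≤ K s := fun s =>
    Pool.Agent.H930.CY.card_le_card (hI s) (hJ s) (hle s) (hsum s)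
  -- the largest degree of a factor
  have hmax : ∀ s, ∃ D, (∀ i, p i = s → a i ≤ D) ∧ (∀ j, d j s ≤ D) ∧
      (2 ≤ D → Nat.totient D + (univ.filter fun j => d j s ≠ 0).card ≤ K s) := by
    intro s
    set V := (univ.filter fun i => p i = s).image a ∪ univ.image (fun j => d j s) with hV
    have hVne : V.Nonempty := by
      have h1 : 0 < (univ.filter fun i => p i = s).card := by
        have := hK2 s
        change 2 ≤ (univ.filter fun i => p i = s).card at this
        omega
      obtain ⟨i, hi⟩ := Finset.card_pos.1 h1
      exact ⟨a i, Finset.mem_union_left _ (Finset.mem_image_of_mem _ hi)⟩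
    have hmem : V.max' hVne ∈ V := Finset.max'_mem _ _
    have hwD : ∀ i, p i = s → a i ≤ V.max' hVne := fun i hi => Finset.le_max' _ _
      (Finset.mem_union_left _ (Finset.mem_image_of_mem _ (by simp [hi])))
    have hdD : ∀ j, d j s ≤ V.max' hVne := fun j => Finset.le_max' V (d j s)
      (Finset.mem_union_right _ (Finset.mem_image_of_mem (fun j => d j s) (mem_univ j)))
    refine ⟨V.max' hVne, hwD, hdD, fun hD => ?_⟩
    have htop := Pool.Agent.H930.CY.top_degree h.pos h.hom h.free h.spread hcone s hD hwD hdD (by
      rcases Finset.mem_union.1 hmem with hm | hm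
      · obtain ⟨i, hi, hai⟩ := Finset.mem_image.1 hm
        exact Or.inl ⟨i, (mem_filter.1 hi).2, hai⟩
      · obtain ⟨j, -, hj⟩ := Finset.mem_image.1 hm
        exact Or.inr ⟨j, hj⟩)
    rw [← Finset.filter_filter, ← Finset.filter_filter] at htop
    exact Pool.Agent.H930.CY.totient_le (hI s) (hJ s) (hle s) (hsum s) hD htop
  -- the factors with as many equations as variables
  have hone : ∀ s, (univ.filter fun j => d j s ≠ 0).card = K s →
      (∀ i, p i = s → a i = 1) ∧ ∀ j, d j s ≠ 0 → d j s = 1 := by
    intro s hs
    obtain ⟨D, hwD, hdD, hD⟩ := hmax s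
    have hD1 : D ≤ 1 := by
      by_contra hcon
      have h1 := hD (by omega)
      have h2 : 0 < Nat.totient D := Nat.totient_pos.2 (by omega)
      omega
    refine ⟨fun i hi => ?_, fun j hj => ?_⟩
    · have h1 := hwD i hi
      have h2 := h.pos i
      omega
    · have h1 := hdD j
      omega
  have hex : ∀ s, ∃ i, p i = s := by
    intro s
    obtain ⟨x, hx⟩ := hxall s
    obtain ⟨i, hi, -⟩ := hx.1 s
    exact ⟨i, hi⟩
  have hdp : Pool.Agent.H930.CY.DimPos d K := by
    intro T hT hcl
    have h4 := hr.dimpos T hT hcl
    have h5 := Finset.card_eq_sum_card_fiberwise (f := p) (s := univ.filter fun i => p i ∈ T)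
      (t := T) (fun i hi => (mem_filter.1 hi).2)
    have h6 : ∑ s ∈ T, ((univ.filter fun i => p i ∈ T).filter fun i => p i = s).card ≤
        ∑ s ∈ T, K s := by
      refine Finset.sum_le_sum fun s hs => Finset.card_le_card fun i hi => ?_
      rw [mem_filter] at hi ⊢
      exact ⟨mem_univ _, hi.2⟩
    have h7 : (Pool.Agent.H930.CY.eqs d T).card =
        (univ.filter fun j => ∃ s ∈ T, d j s ≠ 0).card := by
      unfold Pool.Agent.H930.CY.eqs
      congr!
    rw [h7]
    omega
  obtain ⟨h1, h2, h3⟩ := Pool.Agent.H930.CY.bounds (d := d) h.nonconst hdp n hK2 hdim hcK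
    (by
      intro s hs j hj
      obtain ⟨i, hi⟩ := hex s
      obtain ⟨ho1, ho2⟩ := hone s hs
      obtain ⟨t, hts, ht⟩ := hcone j s i hi (by rw [ho2 j hj, ho1 i hi])
      have h4 : ({s, t} : Finset (Fin r)) ⊆ univ.filter fun s => d j s ≠ 0 := by
        intro u hu
        rcases Finset.mem_insert.1 hu with rfl | hu
        · simp [hj]
        · rw [Finset.mem_singleton.1 hu]; simp [ht]
      have h5 := Finset.card_le_card h4
      rw [Finset.card_pair hts.symm] at h5
      exact h5)
    (by
      intro j s t hst hjs hjt hw hs ht hKs hKt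
      obtain ⟨hs1, hs2⟩ := hone s hs
      obtain ⟨ht1, ht2⟩ := hone t ht
      refine hr.lines j s t hst hKs hKt ?_ ?_
      · rintro i (hi | hi)
        · exact hs1 i hi
        · exact ht1 i hi
      · intro u
        have h4 : ({s, t} : Finset (Fin r)) = univ.filter fun s => d j s ≠ 0 := by
          apply Finset.eq_of_subset_of_card_le
          · intro u hu
            rcases Finset.mem_insert.1 hu with rfl | hu
            · simp [hjs]
            · rw [Finset.mem_singleton.1 hu]; simp [hjt]
          · rw [Finset.card_pair hst]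
            exact hw.le
        by_cases hu : u = s ∨ u = t
        · rw [if_pos hu]
          rcases hu with rfl | rfl
          · exact hs2 j hjs
          · exact ht2 j hjt
        · rw [if_neg hu]
          by_contra h0
          apply hu
          have h5 : u ∈ univ.filter fun s => d j s ≠ 0 := by simp [h0]
          rw [← h4] at h5
          simpa using h5)
    (by
      intro s
      refine Pool.Agent.H930.CY.card_new_le (hI s) (hJ s) (hle s) (hsum s) ?_ ?_
      · intro j hj
        exact mem_filter.2 ⟨mem_univ _, (mem_filter.1 hj).2.1⟩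
      · intro j hj i hi
        obtain ⟨hjs, hw⟩ := (mem_filter.1 hj).2
        refine hr.cone j s i (mem_filter.1 hi).2 fun t hts => ?_
        by_contra h0
        have h4 : ({s, t} : Finset (Fin r)) ⊆ univ.filter fun s => d j s ≠ 0 := by
          intro u hu
          rcases Finset.mem_insert.1 hu with rfl | hu
          · simp [hjs]
          · rw [Finset.mem_singleton.1 hu]; simp [h0]
        have h5 := Finset.card_le_card h4
        rw [Finset.card_pair hts.symm] at h5
        change 2 ≤ Pool.Agent.H930.CY.wt d j at h5
        omega)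
  rw [Fintype.card_fin] at h1 h2
  -- the degrees
  have hdeg : ∀ s, ∃ D, (∀ i, p i = s → a i ≤ D) ∧ (∀ j, d j s ≤ D) ∧ D ≤ 2 * (n + 1) ^ 2 := by
    intro s
    obtain ⟨D, hwD, hdD, hD⟩ := hmax s
    refine ⟨D, hwD, hdD, ?_⟩
    by_cases hD2 : 2 ≤ D
    · have h4 := hD hD2
      have h5 : K s - (univ.filter fun j => d j s ≠ 0).card ≤ n + 1 := h3 s
      have h6 : Nat.totient D ≤ n + 1 := by omega
      have h7 := (Pool.Agent.H930.CY.le_totient_sq D (by omega)).1
      calc D ≤ 2 * Nat.totient D ^ 2 := h7
        _ ≤ 2 * (n + 1) ^ 2 := Nat.mul_le_mul_left _ (Nat.pow_le_pow_left h6 2)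
    · nlinarith [Nat.zero_le n]
  have h4 := h.dim
  refine ⟨h1, h2, by omega, fun i => ?_, fun j s => ?_⟩
  · obtain ⟨D, hwD, -, hD⟩ := hdeg (p i)
    exact (hwD i rfl).trans hD
  · obtain ⟨D, -, hdD, hD⟩ := hdeg s
    exact (hdD j).trans hD

/-- The configurations: the numbers `r`, `k`, `c` of the factors, the variables and the equations,
the distribution `p` of the variables to the factors, their weights `a`, and the multidegrees `d` of
the equations. -/
abbrev Configuration : Type :=
  Σ (r : ℕ) (k : ℕ) (c : ℕ), (Fin k → Fin r) × (Fin k → ℕ) × (Fin c → Fin r → ℕ)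

theorem finite_of_bounds (R M C B : ℕ) : {x : Configuration | x.1 ≤ R ∧ x.2.1 ≤ M ∧ x.2.2.1 ≤ C ∧
    (∀ i, x.2.2.2.2.1 i ≤ B) ∧ ∀ j s, x.2.2.2.2.2 j s ≤ B}.Finite := by
  have h1 : ∀ r k c : ℕ, {y : (Fin k → Fin r) × (Fin k → ℕ) × (Fin c → Fin r → ℕ) |
      (∀ i, y.2.1 i ≤ B) ∧ ∀ j s, y.2.2 j s ≤ B}.Finite := by
    intro r k c
    have h2 : {a : Fin k → ℕ | ∀ i, a i ∈ Set.Iic B}.Finite :=
      Set.Finite.pi' fun _ => Set.finite_Iic B
    have h3 : {d : Fin c → Fin r → ℕ | ∀ j, d j ∈ {e : Fin r → ℕ | ∀ s, e s ∈ Set.Iic B}}.Finite :=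
      Set.Finite.pi' fun _ => Set.Finite.pi' fun _ => Set.finite_Iic B
    refine (Set.finite_univ.prod (h2.prod h3)).subset ?_
    rintro ⟨p, a, d⟩ ⟨ha, hd⟩
    exact ⟨Set.mem_univ _, fun i => ha i, fun j s => hd j s⟩
  have h4 : (⋃ r ∈ Set.Iic R, ⋃ k ∈ Set.Iic M, ⋃ c ∈ Set.Iic C,
      (fun y => (⟨r, k, c, y⟩ : Configuration)) ''
        {y : (Fin k → Fin r) × (Fin k → ℕ) × (Fin c → Fin r → ℕ) |
          (∀ i, y.2.1 i ≤ B) ∧ ∀ j s, y.2.2 j s ≤ B}).Finite :=
    (Set.finite_Iic R).biUnion fun r _ => (Set.finite_Iic M).biUnion fun k _ =>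
      (Set.finite_Iic C).biUnion fun c _ => (h1 r k c).image _
  refine h4.subset ?_
  rintro ⟨r, k, c, y⟩ ⟨hr, hk, hc, ha, hd⟩
  refine Set.mem_biUnion hr (Set.mem_biUnion hk (Set.mem_biUnion hc ?_))
  exact ⟨y, ⟨ha, hd⟩, rfl⟩

/-- **Finiteness for Calabi-Yau complete intersections in products of weighted projective spaces**:
for every `n` there are only finitely many reduced configurations of dimension `n`, and they satisfy
the given bounds. -/
theorem result (n : ℕ) :
    (∀ (r k c : ℕ) (p : Fin k → Fin r) (a : Fin k → ℕ) (d : Fin c → Fin r → ℕ)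
      (f : Fin c → MvPolynomial (Fin k) ℂ), CalabiYau n p a d f → Reduced p a d →
      r ≤ 7 * n ∧ c ≤ 10 * n ∧ k ≤ 18 * n ∧ (∀ i, a i ≤ 2 * (n + 1) ^ 2) ∧
        ∀ j s, d j s ≤ 2 * (n + 1) ^ 2) ∧
    {x : Configuration | Reduced x.2.2.2.1 x.2.2.2.2.1 x.2.2.2.2.2 ∧
      ∃ f, CalabiYau n x.2.2.2.1 x.2.2.2.2.1 x.2.2.2.2.2 f}.Finite := by
  have h1 := bounds n
  refine ⟨h1, (finite_of_bounds (7 * n) (18 * n) (10 * n) (2 * (n + 1) ^ 2)).subset ?_⟩
  rintro ⟨r, k, c, p, a, d⟩ ⟨hr, f, hf⟩
  obtain ⟨h2, h3, h4, h5, h6⟩ := h1 r k c p a d f hf hr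
  exact ⟨h2, h4, h3, h5, h6⟩

end Pool.Agent.Results.MP_3d72f2_ag.ProductsOfWeightedSpaces
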